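import Mathlib

set_option autoImplicit false

open Filter Topology
open scoped ENNReal

namespace Pool.Agent.Results.MP_6afee3_an.Example

abbrev L1 (G : Type) : Type := lp (fun _ : G => ℂ) 1

noncomputable def conv {G : Type} [Group G] (a b : G → ℂ) (x : G) : ℂ :=
  ∑' y, a y * b (y⁻¹ * x)

def C0 (G : Type) : Type := {φ : G → ℂ // Tendsto φ cofinite (𝓝 0)}

noncomputable def pair {G : Type} (f : L1 G) (φ : C0 G) : ℂ := ∑' x, f x * φ.1 x

def WeakStarClosed {G : Type} (J : Set (L1 G)) : Prop :=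
  IsClosed[TopologicalSpace.induced pair Pi.topologicalSpace] J

def LeftIdeal {G : Type} [Group G] (J : Submodule ℂ (L1 G)) : Prop :=
  ∀ a f : L1 G, f ∈ J → ∃ h ∈ J, ∀ x, h x = conv a f x

def FinGen {G : Type} [Group G] (J : Submodule ℂ (L1 G)) : Prop :=
  ∃ (n : ℕ) (f : Fin n → L1 G), (∀ i, f i ∈ J) ∧
    ∀ g ∈ J, ∃ a : Fin n → L1 G, ∀ x, g x = ∑ i, conv (a i) (f i) x

section
variable {G : Type}

lemma sm (f : L1 G) : Summable fun x => ‖f x‖ := by simpa using (lp.memℓp f).summable (by simp)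

lemma nm (f : L1 G) : ‖f‖ = ∑' x, ‖f x‖ := by simpa using lp.norm_eq_tsum_rpow (by simp) f

lemma sm' (f : L1 G) {φ : G → ℂ} (h : ∀ x, ‖φ x‖ ≤ 1) : Summable fun x => ‖f x * φ x‖ :=
  .of_nonneg_of_le (fun _ => norm_nonneg _)
    (fun x => (norm_mul_le _ _).trans (mul_le_of_le_one_right (norm_nonneg _) (h x))) (sm f)

noncomputable def P (φ : G → ℂ) (h : ∀ x, ‖φ x‖ ≤ 1) : L1 G →L[ℂ] ℂ :=
  LinearMap.mkContinuous
    { toFun := fun f => ∑' x, f x * φ x
      map_add' := fun f g => by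
        rw [← (sm' f h).of_norm.tsum_add (sm' g h).of_norm]
        simp [add_mul]
      map_smul' := fun c f => by simp [mul_assoc, tsum_mul_left] } 1 fun f => by
    rw [one_mul, nm]
    exact tsum_of_norm_bounded (sm f).hasSum fun x =>
      (norm_mul_le _ _).trans (mul_le_of_le_one_right (norm_nonneg _) (h x))

lemma P_apply (φ : G → ℂ) (h : ∀ x, ‖φ x‖ ≤ 1) (f : L1 G) : P φ h f = ∑' x, f x * φ x := rfl

lemma P_le (φ : G → ℂ) (h : ∀ x, ‖φ x‖ ≤ 1) (f : L1 G) : ‖P φ h f‖ ≤ ‖f‖ := by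
  simpa using (P φ h).le_of_opNorm_le (LinearMap.mkContinuous_norm_le _ zero_le_one _) f

variable [Group G]

def sh (G : Type) [Group G] : G × G ≃ G × G :=
  (Equiv.prodComm G G).trans ((Equiv.refl G).prodShear fun y => Equiv.mulLeft y⁻¹)

lemma sm2 (a f : L1 G) : Summable fun z : G × G => ‖a z.2 * f (z.2⁻¹ * z.1)‖ :=
  (sh G).summable_iff.2 ((sm a).mul_norm (sm f))

lemma conv_ex (a f : L1 G) : ∃ h : L1 G, ∀ x, h x = conv a f x :=
  ⟨⟨conv a f, memℓp_gen (by
    simpa [conv] using Summable.of_nonneg_of_le (fun _ => norm_nonneg _)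
      (fun x => norm_tsum_le_tsum_norm ((sm2 a f).prod_factor x)) (sm2 a f).prod)⟩, fun _ => rfl⟩

lemma fub (a f : L1 G) {φ : G → ℂ} (h : ∀ x, ‖φ x‖ ≤ 1) :
    ∑' x, conv a f x * φ x = ∑' y, a y * ∑' u, f u * φ (y * u) := by
  have s1 : Summable fun z : G × G => a z.1 * (f z.2 * φ (z.1 * z.2)) :=
    .of_norm_bounded ((sm a).mul_norm (sm f)) fun z => by
      rw [← mul_assoc]
      exact (norm_mul_le _ _).trans (mul_le_of_le_one_right (norm_nonneg _) (h _))
  have e := (sh G).tsum_eq fun z : G × G => a z.1 * (f z.2 * φ (z.1 * z.2))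
  have e' := e.symm.trans ((sh G).summable_iff.2 s1).tsum_prod
  rw [s1.tsum_prod] at e'
  simp only [tsum_mul_left] at e'
  rw [e']
  refine tsum_congr fun x => ?_
  rw [conv, ← tsum_mul_right]
  refine tsum_congr fun y => ?_
  simp [sh, mul_assoc]

end

def G : Subgroup (ℕ → ℤˣ) where
  carrier := {x | ∀ᶠ i in atTop, x i = 1}
  mul_mem' := fun ha hb => (ha.and hb).mono fun i h => by simp [h.1, h.2]
  one_mem' := .of_forall fun _ => rfl
  inv_mem' := fun ha => ha.mono fun i h => by simp [h]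

def ch (n : ℕ) (x : G) : ℂ := ((x.1 n : ℤ) : ℂ)

lemma ch_mul (n : ℕ) (x y : G) : ch n (x * y) = ch n x * ch n y := by simp [ch]

lemma ch_sq (n : ℕ) (x : G) : ch n x * ch n x = 1 := by
  rcases Int.units_eq_one_or (x.1 n) with h | h <;> simp [ch, h]

lemma ch_norm (n : ℕ) (x : G) : ‖ch n x‖ = 1 := by
  rcases Int.units_eq_one_or (x.1 n) with h | h <;> simp [ch, h]

def H (n : ℕ) : Set G := {x | ∀ i, n < i → x.1 i = 1}

lemma H_fin (n : ℕ) : (H n).Finite :=
  Set.Finite.of_injOn (f := fun (x : G) (i : Fin (n + 1)) => x.1 i) (Set.mapsTo_univ _ _)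
    (fun x hx y hy h => Subtype.ext (funext fun i => by
      by_cases hi : n < i
      · rw [hx i hi, hy i hi]
      · exact congrFun h ⟨i, by omega⟩)) Set.finite_univ

noncomputable def k (n : ℕ) : G → ℂ := (H n).indicator (ch n)

lemma k_le (n : ℕ) (x : G) : ‖k n x‖ ≤ 1 :=
  (norm_indicator_le_norm_self _ _).trans (ch_norm n x).le

lemma k_fin (n : ℕ) : {x | k n x ≠ 0}.Finite :=
  (H_fin n).subset Set.support_indicator_subset

noncomputable def K (n : ℕ) : L1 G := ⟨k n, (memℓp_zero (k_fin n)).of_exponent_ge zero_le⟩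

noncomputable def X (n : ℕ) : L1 G →L[ℂ] ℂ := P (ch n) fun x => (ch_norm n x).le

lemma X_K (n : ℕ) : X n (K n) = (‖K n‖ : ℂ) := by
  rw [nm, Complex.ofReal_tsum, X, P_apply]
  refine tsum_congr fun x => ?_
  show k n x * _ = (‖k n x‖ : ℂ)
  by_cases h : x ∈ H n <;> simp [k, h, ch_sq, ch_norm]

lemma K_pos (n : ℕ) : 0 < ‖K n‖ := norm_pos_iff.2 fun h => by
  have h1 : k n 1 = 0 := congrArg (fun f : L1 G => f 1) h
  have h2 : (1 : G) ∈ H n := fun _ _ => rfl
  simp [k, h2, ch] at h1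

lemma X_conv (n : ℕ) (a f h : L1 G) (e : ∀ x, h x = conv a f x) : X n h = X n a * X n f := by
  simp only [X, P_apply, e]
  rw [fub a f fun x => (ch_norm n x).le, ← tsum_mul_right]
  refine tsum_congr fun y => ?_
  rw [mul_assoc, ← tsum_mul_left (a := ch n y)]
  simp only [ch_mul, mul_left_comm]

def gen (j : ℕ) : G := ⟨Pi.mulSingle j (-1), (eventually_gt_atTop j).mono fun i h => by
  simp [h.ne']⟩

lemma k_gen (n j : ℕ) (hj : j ≤ n) (x : G) :
    k n (x * gen j) = (if j = n then -1 else 1) * k n x := by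
  have e : x * gen j ∈ H n ↔ x ∈ H n := forall₂_congr fun i hi => by
    have : i ≠ j := by omega
    simp [gen, this]
  by_cases h : x ∈ H n
  · simp only [k, Set.indicator_of_mem h, Set.indicator_of_mem (e.2 h), ch_mul]
    rw [mul_comm]
    congr 1
    by_cases hn : j = n
    · simp [ch, gen, hn]
    · simp [ch, gen, hn, Ne.symm hn]
  · simp [k, h, e]

lemma k_orth (m n : ℕ) (h : m ≠ n) (x : G) : conv (k m) (k n) x = 0 := by
  have e := (Equiv.mulRight (gen (min m n))).tsum_eq fun y => k m y * k n (y⁻¹ * x)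
  have e2 : ∀ y : G, (y * gen (min m n))⁻¹ * x = y⁻¹ * x * gen (min m n) := fun y =>
    Subtype.ext (funext fun i => by simp [mul_comm, mul_left_comm])
  simp only [Equiv.coe_mulRight, e2, k_gen m _ (min_le_left _ _),
    k_gen n _ (min_le_right _ _)] at e
  have e3 : ∀ y, (if min m n = m then -1 else 1) * k m y *
      ((if min m n = n then -1 else 1) * k n (y⁻¹ * x)) = -(k m y * k n (y⁻¹ * x)) := fun y => by
    rcases lt_or_gt_of_ne h with h' | h'
    · simp [h'.le, h]
    · simp [h'.le, h.symm]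
  simp only [e3, tsum_neg] at e
  exact self_eq_neg.1 e.symm

noncomputable def J : Submodule ℂ (L1 G) :=
  ⨅ (n : ℕ) (y : G), (P (fun x => k (2 * n) (x⁻¹ * y)) fun _ => k_le _ _).ker

lemma mem_J (f : L1 G) : f ∈ J ↔ ∀ n y, conv f (k (2 * n)) y = 0 := by
  simp only [J, Submodule.mem_iInf]
  rfl

lemma J_closed : IsClosed (J : Set (L1 G)) := by
  simp only [J, Submodule.coe_iInf]
  exact isClosed_iInter fun _ => isClosed_iInter fun _ => ContinuousLinearMap.isClosed_ker _

lemma X_lim (f : L1 G) (hf : f ∈ J) : Tendsto (fun n => X n f) atTop (𝓝 0) := by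
  have h1 : Tendsto (fun n => X n f) atTop (𝓝 (∑' x, f x * 1)) :=
    tendsto_tsum_of_dominated_convergence (sm f)
      (fun x => tendsto_const_nhds.congr' (x.2.mono fun i h => by simp [ch, h]))
      (.of_forall fun n x => by rw [norm_mul, ch_norm, mul_one])
  have h2 : ∀ n, X (2 * n) f = 0 := fun n => by
    have := X_conv (2 * n) f (K (2 * n)) 0 fun x => ((mem_J f).1 hf n x).symm
    rw [map_zero, X_K] at this
    exact (mul_eq_zero.1 this.symm).resolve_right (by exact_mod_cast (K_pos _).ne')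
  have h3 := h1.comp (tendsto_id.const_mul_atTop' two_pos)
  simp only [Function.comp_def, id, h2] at h3
  rwa [← tendsto_nhds_unique tendsto_const_nhds h3] at h1

theorem result : ∃ (G : Type) (_ : Group G) (J : Submodule ℂ (L1 G)),
    LeftIdeal J ∧ IsClosed (J : Set (L1 G)) ∧ WeakStarClosed (J : Set (L1 G)) ∧ ¬ FinGen J := by
  refine ⟨G, inferInstance, J, fun a f hf => ?_, J_closed, ?_, ?_⟩
  · obtain ⟨h, e⟩ := conv_ex a f
    refine ⟨h, (mem_J h).2 fun n y => ?_, e⟩
    simp only [conv.eq_1 h, e]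
    rw [fub a f fun _ => k_le _ _]
    have := fun z : G => (mem_J f).1 hf n (z⁻¹ * y)
    simp only [conv, ← mul_assoc, ← mul_inv_rev] at this
    simp only [this, mul_zero, tsum_zero]
  · have hc : ∀ n (y : G), Tendsto (fun x => k n (x⁻¹ * y)) cofinite (𝓝 0) := fun n y =>
      tendsto_const_nhds.congr' (mem_of_superset ((k_fin n).preimage (f := fun x : G => x⁻¹ * y)
        fun a _ b _ h => by simpa using h).compl_mem_cofinite fun x hx => (not_not.1 hx).symm)
    refine isClosed_induced_iff.2 ⟨⋂ (n : ℕ) (y : G), {F | F ⟨_, hc (2 * n) y⟩ = 0},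
      isClosed_iInter fun _ => isClosed_iInter fun _ =>
        isClosed_eq (continuous_apply _) continuous_const, Set.ext fun f => ?_⟩
    simp only [Set.mem_preimage, Set.mem_iInter, SetLike.mem_coe, mem_J]
    rfl
  · rintro ⟨n, f, hf, hg⟩
    set e : ℕ → ℝ := fun m => ∑ i, ‖X m (f i)‖ + 1 / ((m : ℝ) + 1) with he
    have e0 : ∀ m, 0 < e m := fun m => by positivity
    have e1 : Tendsto e atTop (𝓝 0) := by
      simpa [he] using (tendsto_finsetSum Finset.univ fun i _ => (X_lim _ (hf i)).norm).add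
        tendsto_one_div_add_atTop_nhds_zero_nat
    have := J_closed.completeSpace_coe
    have hT : ∀ m (g : J), ‖(((e m)⁻¹ : ℂ) • (X m).comp J.subtypeL) g‖ = (e m)⁻¹ * ‖X m g‖ :=
      fun m g => by
      show ‖((e m)⁻¹ : ℂ) * X m g‖ = _
      rw [norm_mul, norm_inv, Complex.norm_real, Real.norm_of_nonneg (e0 m).le]
    obtain ⟨C, hC⟩ := banach_steinhaus (g := fun m => ((e m)⁻¹ : ℂ) • (X m).comp J.subtypeL)
      fun g => by
      obtain ⟨a, ha⟩ := hg g g.2
      choose h hh using fun i => conv_ex (a i) (f i)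
      have e2 : (g : L1 G) = ∑ i, h i := lp.ext (funext fun x => by
        rw [ha, lp.coeFn_sum, Finset.sum_apply]; simp only [hh])
      refine ⟨∑ i, ‖a i‖, fun m => ?_⟩
      rw [hT, inv_mul_le_iff₀ (e0 m), e2, map_sum]
      refine (norm_sum_le _ _).trans (le_trans ?_ (mul_le_mul_of_nonneg_right
        (le_add_of_nonneg_right (by positivity)) (by positivity)))
      rw [Finset.sum_mul]
      refine Finset.sum_le_sum fun i _ => ?_
      rw [X_conv m _ _ _ (hh i), norm_mul, mul_comm]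
      exact mul_le_mul_of_nonneg_left ((P_le _ _ _).trans (Finset.single_le_sum
        (fun j _ => norm_nonneg (a j)) (Finset.mem_univ i))) (norm_nonneg _)
    have h4 : ∀ m, 1 ≤ e (2 * m + 1) * C := fun m => by
      have hK : K (2 * m + 1) ∈ J := (mem_J _).2 fun j y => k_orth _ _ (by omega) y
      have := ContinuousLinearMap.le_of_opNorm_le _ (hC (2 * m + 1)) ⟨_, hK⟩
      rw [hT, X_K, Complex.norm_real, norm_norm] at this
      rw [← inv_mul_le_iff₀ (e0 _), mul_one]
      exact le_of_mul_le_mul_right this (K_pos _)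
    have h5 := (e1.comp ((tendsto_add_atTop_nat 1).comp
      (tendsto_id.const_mul_atTop' two_pos))).mul_const C
    rw [zero_mul] at h5
    exact absurd (ge_of_tendsto' h5 h4) (by norm_num)

end Pool.Agent.Results.MP_6afee3_an.Example
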